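import Pool.Agent.Y744.GP.Card

/-!
MP_e29873_ag, Q1: for every `m ≥ 2` the nontrivial `(4, 3 m)`-geproci sets in projective
three-space fall into at least continuum many projective equivalence classes.
-/

set_option autoImplicit false

open MvPolynomial Cardinal

namespace Pool.Agent.Results.MP_e29873_ag.ContinuumModuli

/-- Complex projective three-space. -/
abbrev P3 : Type := Projectivization ℂ (Fin 4 → ℂ)

/-- `Z` is `(a, b)`-geproci: it consists of `a b` points and for a general point `P` (outside the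
zero set of some nonzero polynomial `D`) the homogeneous ideal of the image of `Z` under the
projection from `P` to a plane is generated by two forms `F`, `G` of degrees `a` and `b` without
common factor. The projection from `P` is given by a linear map `π` from `ℂ⁴` to `ℂ³` whose
kernel is the line `P`; a polynomial `h` belongs to the ideal of the image of `Z` if it vanishes at
`π x` for all representatives `x` of all points of `Z`. -/
def IsGeproci (a b : ℕ) (Z : Set P3) : Prop :=
  Z.Finite ∧ Z.ncard = a * b ∧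
    ∃ D : MvPolynomial (Fin 4) ℂ, D ≠ 0 ∧ ∀ P : Fin 4 → ℂ, eval P D ≠ 0 →
      ∀ π : (Fin 4 → ℂ) →ₗ[ℂ] (Fin 3 → ℂ), LinearMap.ker π = Submodule.span ℂ {P} →
        ∃ F G : MvPolynomial (Fin 3) ℂ, F.IsHomogeneous a ∧ G.IsHomogeneous b ∧
          IsRelPrime F G ∧ ∀ h : MvPolynomial (Fin 3) ℂ, h ∈ Ideal.span {F, G} ↔
            ∀ (x : Fin 4 → ℂ) (hx : x ≠ 0), Projectivization.mk ℂ x hx ∈ Z → eval (π x) h = 0

/-- `Z` lies in a plane. -/
def IsDegenerate (Z : Set P3) : Prop :=
  ∃ φ : (Fin 4 → ℂ) →ₗ[ℂ] ℂ, φ ≠ 0 ∧ ∀ z ∈ Z, φ z.rep = 0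

/-- `Z` is a grid: the set of intersection points of `a` pairwise skew lines with `b` pairwise
skew lines, each line of the first family meeting each line of the second family in exactly one
point. Lines are two-dimensional subspaces of `ℂ⁴`. -/
def IsGrid (Z : Set P3) : Prop :=
  ∃ a b : ℕ, 1 ≤ a ∧ a ≤ b ∧
    ∃ (A : Fin a → Submodule ℂ (Fin 4 → ℂ)) (B : Fin b → Submodule ℂ (Fin 4 → ℂ)),
      (∀ i, Module.finrank ℂ (A i) = 2) ∧ (∀ j, Module.finrank ℂ (B j) = 2) ∧
      (∀ i i', i ≠ i' → A i ⊓ A i' = ⊥) ∧ (∀ j j', j ≠ j' → B j ⊓ B j' = ⊥) ∧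
      (∀ i j, Module.finrank ℂ (A i ⊓ B j : Submodule ℂ (Fin 4 → ℂ)) = 1) ∧
      Z = {z | ∃ i j, z.submodule = A i ⊓ B j}

/-- `Z` is a nontrivial `(a, b)`-geproci set. -/
def IsNontrivialGeproci (a b : ℕ) (Z : Set P3) : Prop :=
  IsGeproci a b Z ∧ ¬ IsDegenerate Z ∧ ¬ IsGrid Z

/-- `Z` is mapped onto `Z'` by a projective transformation. -/
def ProjectivelyEquivalent (Z Z' : Set P3) : Prop :=
  ∃ g : (Fin 4 → ℂ) ≃ₗ[ℂ] (Fin 4 → ℂ), Projectivization.map g.toLinearMap g.injective '' Z = Z'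

section aux

open Pool.Agent.Helper26.GeprociPts Pool.Agent.Helper26.GeprociCI
open Pool.Agent.Results.MP_586029_ag.GeprociMatroid (V4 V3 R3 XX xs ell_linear)
open Pool.Agent.Helper26.LineArr (lin lin_isHomogeneous lin_irreducible)
open Pool.Agent.Y744.GP

lemma relPrime_of_data {m n : ℕ} {a : Fin m → Fin 3 → ℂ} {w : Fin m → Fin n → Fin 3 → ℂ}
    {G : R3} (H : Data a w G) : IsRelPrime (∏ i, lin (a i)) G := by
  apply IsRelPrime.prod_left
  intro i _
  rw [(lin_irreducible (H.ha i)).isRelPrime_iff_not_dvd]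
  exact H.hGa i

lemma geproci_deg {n : ℕ} {s : Fin n → ℂ} (hn : 0 < n) (hs : GoodS s) {P : V4}
    (hP : eval P (DS s) ≠ 0) {π : V4 →ₗ[ℂ] V3} (hπ : LinearMap.ker π = Submodule.span ℂ {P}) :
    ∃ F G : R3, F.IsHomogeneous 4 ∧ G.IsHomogeneous (n * 3) ∧ IsRelPrime F G ∧
      ∀ h : R3, h ∈ Ideal.span {F, G} ↔
        ∀ (x : V4) (hx : x ≠ 0), Projectivization.mk ℂ x hx ∈ Zs s → eval (π x) h = 0 := by
  obtain ⟨gen1, gen2⟩ := DS_general hP
  have hsurj : LinearMap.range π = ⊤ := by
    apply Submodule.eq_top_of_finrank_eq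
    have h1 := LinearMap.finrank_range_add_finrank_ker π
    have h2 : Module.finrank ℂ (LinearMap.ker π) ≤ 1 := by
      rw [hπ]
      exact (finrank_span_le_card ({P} : Set V4)).trans (by simp)
    have h3 : Module.finrank ℂ (LinearMap.range π) ≤ Module.finrank ℂ V3 :=
      Submodule.finrank_le _
    have h4 : Module.finrank ℂ V4 = 4 := by simp
    have h5 : Module.finrank ℂ V3 = 3 := by simp
    omega
  obtain ⟨σ, hσ⟩ := LinearMap.exists_rightInverse_of_surjective π hsurj
  have hπσ : ∀ y, π (σ y) = y := fun y => by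
    have := LinearMap.congr_fun hσ y
    simpa using this
  have hσπ : ∀ x, ∃ κ : ℂ, σ (π x) = x + κ • P := by
    intro x
    have h1 : σ (π x) - x ∈ LinearMap.ker π := by
      rw [LinearMap.mem_ker, map_sub, hπσ, sub_self]
    rw [hπ, Submodule.mem_span_singleton] at h1
    obtain ⟨κ, hκ⟩ := h1
    exact ⟨κ, by rw [hκ]; abel⟩
  have hellx : ∀ x k, ∑ r, ell P (σ (Pi.single r 1)) k * π x r = ell P x k := by
    intro x k
    rw [ell_linear]
    obtain ⟨κ, hκ⟩ := hσπ x
    have := ell_smul_add P x 1 κ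
    rw [one_smul, one_smul] at this
    rw [hκ, this]
  have hGGx : ∀ x (c : ℂ), eval (c • π x) (GS s P σ) =
      ∏ j, (c ^ 3 * Psi (s j) P x) := by
    intro x c
    rw [eval_GS, map_smul]
    obtain ⟨κ, hκ⟩ := hσπ x
    rw [hκ, smul_add, smul_smul]
    exact Finset.prod_congr rfl fun j _ => Psi_smul_add _ _ _ _ _
  set a : Fin 4 → V3 := fun i r => ell P (σ (Pi.single r 1)) i with ha
  let q : Fin (n * 3) → Fin n × Fin 3 := finProdFinEquiv.symm
  have hq : Function.Injective q := finProdFinEquiv.symm.injective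
  set w : Fin 4 → Fin (n * 3) → V3 := fun i l => π (dp (s (q l).1) i (q l).2) with hw
  let l0 : Fin (n * 3) := ⟨0, by omega⟩
  have hoff : ∀ i k l, i ≠ k → ∑ r, a k r * w i l r ≠ 0 := by
    intro i k l hik
    rw [hellx]
    exact gen1 i k _ _ hik
  have haw : ∀ i l, ∑ r, a i r * w i l r = 0 := by
    intro i l
    rw [hellx, dp, ell_lpt_self]
  have hne : ∀ i : Fin 4, ∃ k, i ≠ k := by decide
  have H : Data a w (GS s P σ) := by
    refine ⟨?_, ?_, haw, hoff, ?_, GS_hom P σ, ?_, ?_⟩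
    · intro i h0
      obtain ⟨k, hk⟩ := hne i
      apply hoff k i l0 hk.symm
      rw [h0]
      simp
    · intro i j h0
      obtain ⟨k, hk⟩ := hne i
      apply hoff i k j hk
      rw [h0]
      simp
    · intro i l l' hll c hc
      have h1 : dp (s (q l).1) i (q l).2 - c • dp (s (q l').1) i (q l').2 ∈ LinearMap.ker π := by
        rw [LinearMap.mem_ker, map_sub, map_smul]
        change w i l - c • w i l' = 0
        rw [hc, sub_self]
      rw [hπ, Submodule.mem_span_singleton] at h1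
      obtain ⟨κ, hκ⟩ := h1
      by_cases hκ0 : κ = 0
      · rw [hκ0, zero_smul] at hκ
        refine ne_point hs (i := i) (j := (q l).1) (a := (q l).2) (j' := (q l').1)
          (a' := (q l').2) ?_ c (sub_eq_zero.mp hκ.symm)
        intro h'
        exact hll (hq h')
      · obtain ⟨k, hk⟩ := hne i
        apply gen1 k i (q l).1 (q l).2 hk.symm
        have hPl : P = lpt i (κ⁻¹ * (pA (s (q l).1) (q l).2 - c * pA (s (q l').1) (q l').2))
            (κ⁻¹ * (pB (s (q l).1) (q l).2 - c * pB (s (q l').1) (q l').2)) := by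
          have : P = κ⁻¹ • (κ • P) := by rw [smul_smul, inv_mul_cancel₀ hκ0, one_smul]
          rw [this, hκ]
          funext r
          simp only [dp, lpt, Pi.smul_apply, Pi.sub_apply, smul_eq_mul]
          ring
        rw [hPl, ell_lpt_left]
    · intro i l c _
      rw [hGGx]
      apply Finset.prod_eq_zero (Finset.mem_univ (q l).1)
      rw [Psi_dp, mul_zero]
    · intro i hdvd
      obtain ⟨p, hp⟩ := hdvd
      have h1 := congrArg (eval (π (lpt i 0 1))) hp
      rw [map_mul, eval_lin, hellx, ell_lpt_self, zero_mul] at h1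
      have h2 := hGGx (lpt i 0 1) 1
      rw [one_smul, h1] at h2
      have h3 := Finset.prod_eq_zero_iff.mp h2.symm
      obtain ⟨j, -, hj⟩ := h3
      rw [one_pow, one_mul] at hj
      exact gen2 i j hj
  refine ⟨∏ i, lin (a i), GS s P σ, ?_, GS_hom P σ, relPrime_of_data H, fun F => ⟨?_, ?_⟩⟩
  · have := IsHomogeneous.prod Finset.univ (fun i => lin (a i)) (fun _ => 1)
      (fun i _ => lin_isHomogeneous _)
    simpa using this
  · intro hF
    rw [Ideal.mem_span_pair] at hF
    obtain ⟨α, β, rfl⟩ := hF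
    intro x hx hxZ
    obtain ⟨i, j, b, c, hc, rfl⟩ := mem_Zs hx hxZ
    have h1 : eval (π (c • dp (s j) i b)) (∏ i, lin (a i)) = 0 := by
      rw [map_prod]
      apply Finset.prod_eq_zero (Finset.mem_univ i)
      rw [eval_lin, hellx]
      have := ell_smul_add P (dp (s j) i b) c 0
      rw [zero_smul, add_zero] at this
      rw [this, Pi.smul_apply, dp, ell_lpt_self, smul_zero]
    have h2 : eval (π (c • dp (s j) i b)) (GS s P σ) = 0 := by
      rw [map_smul, hGGx]
      apply Finset.prod_eq_zero (Finset.mem_univ j)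
      rw [Psi_dp, mul_zero]
    rw [map_add, map_mul, map_mul, h1, h2]
    ring
  · intro hF
    apply mem_span_of_data H Finset.univ F
    intro i _ l c hc
    have hc0 : c • dp (s (q l).1) i (q l).2 ≠ 0 := smul_ne_zero hc (dp_ne_zero _ _ _)
    have := hF (c • dp (s (q l).1) i (q l).2) hc0 (smul_dp_mem i _ _ hc0)
    rw [map_smul] at this
    exact this

lemma nontrivial_ZZ {k : ℕ} {t : Fin k → ℂ} (ht : AlgebraicIndependent ℚ t) :
    IsNontrivialGeproci 4 (3 * (k + 1)) (ZZ t) := by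
  refine ⟨⟨Set.finite_range _, ?_, DS (ext0 t), DS_ne_zero (good_of_ai ht), ?_⟩, ?_, ?_⟩
  · rw [ncard_ZZ (good_of_ai ht)]
    ring
  · intro P hP π hπ
    have h := geproci_deg (Nat.succ_pos k) (good_of_ai ht) hP hπ
    rw [Nat.mul_comm 3 (k + 1)]
    exact h
  · exact not_isDegenerate_Zs (j₀ := 0) rfl
  · exact not_isGrid_Zs (j₀ := 0) rfl

end aux

open Pool.Agent.Y744.GP in
/-- **Main result.** For every `m ≥ 2` there is a set of continuum many nontrivial
`(4, 3 m)`-geproci sets in projective three-space which are pairwise not projectively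
equivalent. -/
theorem result (m : ℕ) (hm : 2 ≤ m) : ∃ T : Set (Set P3), #T = 𝔠 ∧
    (∀ Z ∈ T, IsNontrivialGeproci 4 (3 * m) Z) ∧
    ∀ Z ∈ T, ∀ Z' ∈ T, Z ≠ Z' → ¬ ProjectivelyEquivalent Z Z' := by
  obtain ⟨k, rfl⟩ : ∃ k, m = k + 1 := ⟨m - 1, by omega⟩
  obtain ⟨T, hT, hai, hinj⟩ := exists_large (k := k) (by omega)
  refine ⟨(fun t : Fin k → ℂ => ZZ t) '' T, ?_, ?_, ?_⟩
  · rw [← hT]
    apply mk_image_eq_of_injOn
    intro t ht t' ht' h
    have h' : ZZ t = ZZ t' := h
    exact hinj t ht t' ht' (by rw [h']; exact pe_refl _)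
  · rintro _ ⟨t, ht, rfl⟩
    exact nontrivial_ZZ (hai t ht)
  · rintro _ ⟨t, ht, rfl⟩ _ ⟨t', ht', rfl⟩ hne h
    apply hne
    rw [hinj t ht t' ht' h]

end Pool.Agent.Results.MP_e29873_ag.ContinuumModuli
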